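import Pool.Agent.H39.VQ.Targets

/-!
# Frequencies of the functions in `Kc` (module FR)
-/

set_option autoImplicit false

open Finset

namespace Pool.Agent.H31.VQ

open Pool.Agent.H11.CV Pool.Agent.H39.VQ

private lemma ee_ne (M : ℕ) (a : ℤ) : ee M a ≠ 0 := Complex.exp_ne_zero _

private lemma ee_add (M : ℕ) (a b : ℤ) : ee M (a + b) = ee M a * ee M b := by
  unfold ee
  rw [← Complex.exp_add]
  congr 1
  push_cast
  ring

private lemma ee_sub (M : ℕ) (a b : ℤ) : ee M (a - b) = ee M a / ee M b := by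
  rw [eq_div_iff (ee_ne M b), ← ee_add, sub_add_cancel]

private lemma ee_zmul (M : ℕ) (n a : ℤ) : ee M (n * a) = ee M a ^ n := by
  unfold ee
  rw [← Complex.exp_int_mul]
  congr 1
  push_cast
  ring

private lemma ee_nmul (M n : ℕ) (a : ℤ) : ee M ((n : ℤ) * a) = ee M a ^ n := by
  rw [ee_zmul, zpow_natCast]

private lemma root (M : ℕ) (hM : 0 < M) (z : ℂ) (hz : z ^ M = 1) : ∃ x : ℤ, z = ee M x := by
  haveI : NeZero M := ⟨hM.ne'⟩
  have hz0 : z ≠ 0 := by
    rintro rfl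
    rw [zero_pow hM.ne'] at hz
    exact zero_ne_one hz
  have h := (Complex.mem_rootsOfUnity M (Units.mk0 z hz0)).1 (by
    rw [mem_rootsOfUnity']
    simpa using hz)
  obtain ⟨i, _, hi⟩ := h
  refine ⟨i, ?_⟩
  rw [Units.val_mk0] at hi
  rw [← hi]
  unfold ee
  congr 1

section
variable {G : Type} [AddCommGroup G]

private lemma chi_sub (χ : AddChar G ℂ) (a b : G) : χ (a - b) = χ a / χ b :=
  AddChar.map_sub_eq_div χ a b

end

theorem pf_FR (hFT : V_FT) (hEX : T_EX) : V_FR := by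
  obtain ⟨_, _, _, hdvd, _, hcan, _⟩ := hEX
  intro p L k ε s G _ _ u0 u1 u2 h hp hL hkL hK χ hχ
  obtain ⟨hKa, hKb, hKc⟩ := hK
  obtain ⟨_, _, _, hshift, _, _⟩ := hFT G
  have hp0 : 0 < p := by omega
  -- the relations for the character
  have e1 : χ (p ^ (L - 1) • u0) = ee p ε := by
    have h1 := hshift h (p ^ (L - 1) • u0) χ
    have h2 : ft (fun g => h (g + p ^ (L - 1) • u0)) χ = ee p ε * ft h χ := by
      unfold ft
      rw [Finset.mul_sum]
      refine Finset.sum_congr rfl fun g _ => ?_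
      dsimp only
      rw [hKa g]
      ring
    rw [h2] at h1
    exact (mul_right_cancel₀ hχ h1).symm
  have e2 : χ (p ^ (L - k) • (u1 - s • u0)) = 1 := by
    have h1 := hshift h (p ^ (L - k) • (u1 - s • u0)) χ
    have h2 : ft (fun g => h (g + p ^ (L - k) • (u1 - s • u0))) χ = 1 * ft h χ := by
      unfold ft
      rw [one_mul]
      refine Finset.sum_congr rfl fun g _ => ?_
      dsimp only
      rw [hKb g]
    rw [h2] at h1
    exact (mul_right_cancel₀ hχ h1).symm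
  have e3 : χ (p ^ (L - 2 * k) • (u2 - (2 * s) • u1 + s ^ 2 • u0)) = 1 := by
    have h1 := hshift h (p ^ (L - 2 * k) • (u2 - (2 * s) • u1 + s ^ 2 • u0)) χ
    have h2 : ft (fun g => h (g + p ^ (L - 2 * k) • (u2 - (2 * s) • u1 + s ^ 2 • u0))) χ =
        1 * ft h χ := by
      unfold ft
      rw [one_mul]
      refine Finset.sum_congr rfl fun g _ => ?_
      dsimp only
      rw [hKc g]
    rw [h2] at h1
    exact (mul_right_cancel₀ hχ h1).symm
  rw [AddChar.map_nsmul_eq_pow] at e1 e2 e3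
  have hM : 0 < p ^ L := pow_pos hp0 L
  have hML : p ^ (L - 1) * p = p ^ L := by
    rw [← pow_succ, Nat.sub_add_cancel hL]
  have hMk : p ^ (L - k) * p ^ k = p ^ L := by
    rw [← pow_add]
    congr 1
    omega
  have hM2k : p ^ (L - 2 * k) * p ^ (2 * k) = p ^ L := by
    rw [← pow_add]
    congr 1
    omega
  constructor
  · -- existence
    obtain ⟨x, hx⟩ := root (p ^ L) hM (χ u0) (by
      rw [← hML, pow_mul, e1, ← ee_nmul]
      have h1 := ee_zmul p ε (p : ℤ)
      have h2 : ee p (p : ℤ) = 1 := by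
        unfold ee
        have h3 : (((p : ℤ) : ℂ) / (p : ℂ)) = 1 := by
          rw [Int.cast_natCast, div_self (by exact_mod_cast hp0.ne')]
        rw [h3, mul_one]
        exact Complex.exp_two_pi_mul_I
      rw [h2, one_zpow] at h1
      rw [mul_comm]
      exact h1)
    obtain ⟨y, hy⟩ := root (p ^ L) hM (χ (u1 - s • u0)) (by
      rw [← hMk, pow_mul, e2, one_pow])
    obtain ⟨z, hz⟩ := root (p ^ L) hM (χ (u2 - (2 * s) • u1 + s ^ 2 • u0)) (by
      rw [← hM2k, pow_mul, e3, one_pow])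
    have hχ1 : χ u1 = ee (p ^ L) (y + s * x) := by
      have h1 : u1 = (u1 - s • u0) + s • u0 := by abel
      rw [h1, AddChar.map_add_eq_mul, hy, AddChar.map_zsmul_eq_zpow, hx, ee_add, ee_zmul]
    have hχ2 : χ u2 = ee (p ^ L) (z + (2 * s) * (y + s * x) - s ^ 2 * x) := by
      have h1 : u2 = (u2 - (2 * s) • u1 + s ^ 2 • u0) + (2 * s) • u1 - s ^ 2 • u0 := by abel
      rw [h1, AddChar.map_sub_eq_div, AddChar.map_add_eq_mul, hz, AddChar.map_zsmul_eq_zpow,
        AddChar.map_zsmul_eq_zpow, hx, hχ1, ee_sub, ee_add (p ^ L) z,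
        ee_zmul (p ^ L) (2 * s) (y + s * x), ee_zmul (p ^ L) (s ^ 2) x]
    exact ⟨x, y + s * x, z + (2 * s) * (y + s * x) - s ^ 2 * x, hx, hχ1, hχ2⟩
  · intro x y z hF
    obtain ⟨hx, hy, hz⟩ := hF
    refine ⟨?_, ?_, ?_⟩
    · rw [hx, ← ee_nmul] at e1
      have h1 := hcan p (p ^ (L - 1)) x (pow_pos hp0 _)
      rw [mul_comm p, hML] at h1
      rw [h1] at e1
      have h2 : ee p (x - ε) = 1 := by
        rw [ee_sub, e1, div_self (ee_ne p ε)]
      exact hdvd p (x - ε) hp0 h2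
    · have h0 : χ (u1 - s • u0) = ee (p ^ L) (y - s * x) := by
        rw [AddChar.map_sub_eq_div, AddChar.map_zsmul_eq_zpow, hx, hy, ee_sub, ee_zmul]
      rw [h0, ← ee_nmul] at e2
      have h1 := hcan (p ^ k) (p ^ (L - k)) (y - s * x) (pow_pos hp0 _)
      rw [mul_comm (p ^ k), hMk] at h1
      rw [h1] at e2
      have h2 := hdvd (p ^ k) (y - s * x) (pow_pos hp0 _) e2
      exact_mod_cast h2
    · have h0 : χ (u2 - (2 * s) • u1 + s ^ 2 • u0) =
          ee (p ^ L) (z - 2 * s * y + s ^ 2 * x) := by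
        rw [AddChar.map_add_eq_mul, AddChar.map_sub_eq_div, AddChar.map_zsmul_eq_zpow,
          AddChar.map_zsmul_eq_zpow, hx, hy, hz, ee_add, ee_sub, ee_zmul (p ^ L) (2 * s) y,
          ee_zmul (p ^ L) (s ^ 2) x]
      rw [h0, ← ee_nmul] at e3
      have h1 := hcan (p ^ (2 * k)) (p ^ (L - 2 * k)) (z - 2 * s * y + s ^ 2 * x) (pow_pos hp0 _)
      rw [mul_comm (p ^ (2 * k)), hM2k] at h1
      rw [h1] at e3
      have h2 := hdvd (p ^ (2 * k)) (z - 2 * s * y + s ^ 2 * x) (pow_pos hp0 _) e3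
      exact_mod_cast h2

end Pool.Agent.H31.VQ
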